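import Pool.Agent.PCL.Stmts

/-!
# Squad PCL, row VDM
-/

set_option autoImplicit false

namespace Pool.Agent.PCL.H88

open Pool.Agent.PCL

/-- number of pairs -/
theorem sum_ioi (m : ℕ) : ∑ i : Fin (m + 1), (Finset.Ioi i).card = m * (m + 1) / 2 := by
  have h1 : ∀ i : Fin (m + 1), (Finset.Ioi i).card = m + 1 - 1 - (i : ℕ) := fun i => Fin.card_Ioi i
  rw [Finset.sum_congr rfl fun i _ => h1 i,
    ← Finset.sum_range (fun i : ℕ => m + 1 - 1 - i), Finset.sum_range_reflect (fun i => i) (m + 1),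
    Finset.sum_range_id]
  congr 1
  rw [Nat.add_sub_cancel, mul_comm]

theorem mult_le {p : ℤ} {t : ℕ} (ht : 1 ≤ t) {x : ℤ} (h : ¬ p ^ t ∣ x) :
    emultiplicity p x ≤ ((t - 1 : ℕ) : ℕ∞) := by
  have h1 : emultiplicity p x < (t : ℕ∞) := emultiplicity_lt_iff_not_dvd.2 h
  obtain ⟨s, rfl⟩ : ∃ s, t = s + 1 := ⟨t - 1, by omega⟩
  rw [Nat.add_sub_cancel]
  rw [Nat.cast_add, Nat.cast_one] at h1
  exact Order.le_of_lt_add_one h1

theorem vdm : VdmStmt := by
  classical
  intro m σ f p j t hp ht hj hdeg hprm A hA hinc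
  by_contra hcon
  push Not at hcon
  obtain ⟨s, k, hsk⟩ := hprm
  have hpZ : Prime (p : ℤ) := Nat.prime_iff_prime_int.1 hp
  have hk : k ≤ m := by
    by_contra hk
    push Not at hk
    apply hsk
    rw [Polynomial.coeff_eq_zero_of_natDegree_lt (lt_of_le_of_lt (hdeg s) hk)]
    exact dvd_zero _
  -- `m + 1` elements
  obtain ⟨B, hBA, hBc⟩ := Finset.exists_subset_card_eq (Nat.succ_le_of_lt hcon)
  let e : Fin (m + 1) ≃ B := (Finset.equivFinOfCardEq hBc).symm
  obtain ⟨a, ha⟩ : ∃ a : Fin (m + 1) → ℤ, a = fun i => ((e i : B) : ℤ) := ⟨_, rfl⟩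
  have haA : ∀ i, a i ∈ A := by
    intro i
    rw [ha]
    exact hBA (e i).2
  have hinj : ∀ i l, a i = a l → i = l := by
    intro i l h
    rw [ha] at h
    exact e.injective (Subtype.ext h)
  -- Vandermonde
  have hdvd : ((p : ℤ) ^ j) ∣ (Matrix.vandermonde a).det * (f s).coeff k := by
    have h1 : (Matrix.vandermonde a).adjugate.mulVec
        ((Matrix.vandermonde a).mulVec (fun i : Fin (m + 1) => (f s).coeff i)) =
        (Matrix.vandermonde a).det • (fun i : Fin (m + 1) => (f s).coeff i) := by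
      rw [Matrix.mulVec_mulVec, Matrix.adjugate_mul, Matrix.smul_mulVec, Matrix.one_mulVec]
    have h2 := congrFun h1 ⟨k, by omega⟩
    rw [Pi.smul_apply, smul_eq_mul] at h2
    rw [← h2]
    change ((p : ℤ) ^ j) ∣ ∑ i, (Matrix.vandermonde a).adjugate ⟨k, by omega⟩ i *
      (Matrix.vandermonde a).mulVec (fun i : Fin (m + 1) => (f s).coeff i) i
    refine Finset.dvd_sum fun i _ => Dvd.dvd.mul_left ?_ _
    have h3 : (Matrix.vandermonde a).mulVec (fun i : Fin (m + 1) => (f s).coeff i) i =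
        (f s).eval (a i) := by
      rw [Polynomial.eval_eq_sum_range' (Nat.lt_succ_of_le (hdeg s)), Finset.sum_range]
      change ∑ l : Fin (m + 1), Matrix.vandermonde a i l * (f s).coeff l = _
      refine Finset.sum_congr rfl fun l _ => ?_
      rw [Matrix.vandermonde_apply]
      exact mul_comm _ _
    rw [h3]
    exact hA _ (haA i) s
  have hcop : IsCoprime ((p : ℤ) ^ j) ((f s).coeff k) :=
    ((Prime.coprime_iff_not_dvd hpZ).2 hsk).pow_left
  have hdet : ((p : ℤ) ^ j) ∣ (Matrix.vandermonde a).det := hcop.dvd_of_dvd_mul_right hdvd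
  rw [Matrix.det_vandermonde] at hdet
  have h5 : (j : ℕ∞) ≤ emultiplicity (p : ℤ) (∏ i, ∏ l ∈ Finset.Ioi i, (a l - a i)) :=
    pow_dvd_iff_le_emultiplicity.1 hdet
  have h6 : emultiplicity (p : ℤ) (∏ i, ∏ l ∈ Finset.Ioi i, (a l - a i)) ≤
      (((t - 1) * (m * (m + 1) / 2) : ℕ) : ℕ∞) := by
    rw [Finset.emultiplicity_prod hpZ]
    have h7 : ∀ i : Fin (m + 1), emultiplicity (p : ℤ) (∏ l ∈ Finset.Ioi i, (a l - a i)) ≤
        (((Finset.Ioi i).card * (t - 1) : ℕ) : ℕ∞) := by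
      intro i
      rw [Finset.emultiplicity_prod hpZ]
      refine (Finset.sum_le_card_nsmul _ _ ((t - 1 : ℕ) : ℕ∞) fun l hl => ?_).trans (le_of_eq ?_)
      · refine mult_le ht fun h => ?_
        have h8 := hinj l i (hinc _ (haA l) _ (haA i) h)
        exact absurd (Finset.mem_Ioi.1 hl) (by rw [h8]; exact lt_irrefl i)
      · rw [nsmul_eq_mul]
        push_cast
        rfl
    refine (Finset.sum_le_sum fun i _ => h7 i).trans (le_of_eq ?_)
    rw [← Nat.cast_sum, ← Finset.sum_mul, sum_ioi, mul_comm]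
  have h9 := h5.trans h6
  have h10 : j ≤ (t - 1) * (m * (m + 1) / 2) := by exact_mod_cast h9
  omega

end Pool.Agent.PCL.H88
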